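import Pool.Agent.H58.BL.Stm3

/-!
# Two numerical inequalities (task BITS)
-/

set_option autoImplicit false

namespace Pool.Agent.H930.BL

theorem bits1 : ∀ r : ℕ, 5 ≤ r →
    Real.logb 2 ((((2 ^ r) ^ 2 : ℕ)) : ℝ) + 0.36518 ≤ 0.39478 * ((2 ^ r : ℕ) : ℝ) := by
  have key : ∀ r : ℕ, 5 ≤ r → 2 * (r : ℝ) + 0.36518 ≤ 0.39478 * (2 : ℝ) ^ r := by
    intro r hr
    induction r, hr using Nat.le_induction with
    | base => norm_num
    | succ r hr ih =>
      have h1 : (32 : ℝ) ≤ 2 ^ r := by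
        calc (32 : ℝ) = 2 ^ 5 := by norm_num
          _ ≤ 2 ^ r := pow_le_pow_right₀ (by norm_num) hr
      rw [pow_succ]
      push_cast
      linarith
  intro r hr
  have h1 : Real.logb 2 ((((2 ^ r) ^ 2 : ℕ)) : ℝ) = 2 * (r : ℝ) := by
    push_cast
    rw [Real.logb_pow, Real.logb_pow, Real.logb_self_eq_one (by norm_num)]
    push_cast
    ring
  rw [h1]
  have := key r hr
  push_cast
  exact this

set_option exponentiation.threshold 500 in
theorem bits2 : ∀ e : ℕ, 9 ≤ e →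
    Real.logb 2 ((e ^ 2 : ℕ) : ℝ) + 0.73036 ≤ 0.39478 * ((2 * e : ℕ) : ℝ) := by
  intro e he
  have hl := Real.log_two_gt_d9
  have hl0 : 0 < Real.log 2 := Real.log_pos (by norm_num)
  have heR : (9 : ℝ) ≤ e := by exact_mod_cast he
  have h9 : Real.logb 2 9 ≤ 3.17 := by
    rw [Real.logb_le_iff_le_rpow (by norm_num) (by norm_num)]
    have h1 : (9 : ℝ) ^ (100 : ℕ) ≤ ((2 : ℝ) ^ (3.17 : ℝ)) ^ (100 : ℕ) := by
      rw [← Real.rpow_natCast ((2 : ℝ) ^ (3.17 : ℝ)), ← Real.rpow_mul (by norm_num)]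
      have h2 : (3.17 : ℝ) * ((100 : ℕ) : ℝ) = ((317 : ℕ) : ℝ) := by norm_num
      rw [h2, Real.rpow_natCast]
      norm_num
    exact le_of_pow_le_pow_left₀ (by norm_num) (by positivity) h1
  have h3 : Real.logb 2 (e : ℝ) = Real.logb 2 9 + Real.logb 2 ((e : ℝ) / 9) := by
    rw [← Real.logb_mul (by norm_num) (by positivity)]
    congr 1
    field_simp
  have h4 : Real.log ((e : ℝ) / 9) ≤ (e : ℝ) / 9 - 1 := Real.log_le_sub_one_of_pos (by positivity)
  have h5 : Real.logb 2 ((e : ℝ) / 9) ≤ ((e : ℝ) / 9 - 1) / 0.6931471803 := by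
    unfold Real.logb
    have h6 : 0 ≤ (e : ℝ) / 9 - 1 := by linarith
    calc Real.log ((e : ℝ) / 9) / Real.log 2 ≤ ((e : ℝ) / 9 - 1) / Real.log 2 :=
          div_le_div_of_nonneg_right h4 hl0.le
      _ ≤ ((e : ℝ) / 9 - 1) / 0.6931471803 :=
          div_le_div_of_nonneg_left h6 (by norm_num) hl.le
  have h7 : Real.logb 2 ((e ^ 2 : ℕ) : ℝ) = 2 * Real.logb 2 (e : ℝ) := by
    push_cast
    rw [Real.logb_pow]
    push_cast
    ring
  have h8 : ((e : ℝ) / 9 - 1) / 0.6931471803 ≤ 0.2 * ((e : ℝ) - 9) := by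
    rw [div_le_iff₀ (by norm_num)]
    nlinarith
  rw [h7, h3]
  push_cast
  linarith

theorem t_bits : Pool.Agent.H58.BL.S_BITS := ⟨bits1, bits2⟩

end Pool.Agent.H930.BL
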